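import Mathlib
import Pool.Agent.H787R3.BDefs
import Pool.Agent.H787R3.Beta2
import Pool.Agent.H787R3.Beta4
import Pool.Agent.H787R3.Beta5

/-!
# `ATR₀` with both Ulm-theory test statements does not prove `Π¹₁` comprehension

There is a model of `ATR₀` (hence of `RCA₀`) in which both statements (a) and (b) hold for all
torsion abelian groups of the model and in which the comprehension scheme for `Π¹₁` formulas
fails.
-/

namespace Pool.Agent.Results.MP_660a49_lc.KaplanskyTests

open Pool.Agent.Helper617.RM Pool.Agent.Helper317.Atr Pool.Agent.H787R3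

/-- `ATR₀` (which includes `RCA₀`) together with the statements (a) and (b) does not prove
`Π¹₁-CA₀`: there is a model of `ATR₀`, (a) and (b) in which `Π¹₁` comprehension fails. -/
theorem result : ∃ N : L2Structure.{0},
    IsModelATR0 N ∧ TestA N ∧ TestB N ∧ ¬ Pi11Comp N := by
  obtain ⟨S, hS, h⟩ := exists_beta_not_pi11
  exact ⟨om S, hS.atr0, hS.testA, hS.testB, h⟩

end Pool.Agent.Results.MP_660a49_lc.KaplanskyTests
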